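import Pool.Agent.T2h74S.Asm2
import Pool.Agent.T2h74S.Red
import Pool.Agent.T2h74S.Int
import Pool.Agent.T2h74S.Gen
import Pool.Agent.T2h74S.Prim
import Pool.Agent.T2h74S.FixA
import Pool.Agent.T2h74S.FixB
import Pool.Agent.T2h74S.Fix
import Pool.Agent.T2h74S.Reps
import Pool.Agent.T2h74S.Grow
import Pool.Agent.T2h74S.Uni
import Pool.Agent.T2h74S.Low
import Pool.Agent.T2h74S.High
import Pool.Agent.T2h74S.Triv
import Pool.Agent.T2h74S.Trace
import Pool.Agent.T2h74S.Cut

/-!
# A density theorem for the symplectic groups `Sp_2g` over `ℚ`: all congruence subgroups, all small primes at once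

Let `g ≥ 2`. Let `N ≥ 1`, let `H` be any subgroup of `Sp_2g(ℤ/N)`, and consider the cusp forms for `Sp_2g` over `ℚ`
which are invariant under the inverse image of `H` in `Sp_2g` of the profinite completion of `ℤ`, i.e. the functions
`f` on `Sp_2g(ℝ) × Sp_2g(ℤ/N) ⧸ H` with `f (γ x, γ c) = f (x, c)` for `γ ∈ Sp_2g(ℤ)`. By strong approximation these
are the functions on the quotient of `Sp_2g(ℝ)` by the congruence subgroup `Γ` of `Sp_2g(ℤ)` which is the inverse image
of `H`, of index `D = [Sp_2g(ℤ/N) : H]`; each congruence subgroup of `Sp_2g(ℤ)` occurs.

We show: there is a constant `c > 0`, depending only on `g`, such that for every `0 < τ ≤ 1` all but at most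
`C D^(1 - c τ)` of the members of an arbitrary orthonormal system of Hecke eigenforms of bounded type at infinity have
all their standard Satake parameters `α_1^(±1), ..., α_g^(±1)` of absolute value less than `p ^ τ`, for all the primes
`p ≤ D^(c τ)` which do not divide `N`, simultaneously. The constant `C` depends on `g`, `τ` and on the type at infinity,
not on `N` and `H`. So the Ramanujan conjecture for the standard parameters holds up to `τ`, at all these primes at
once, for all the forms outside a set which is smaller by a power than the volume of the space, in every tower of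
congruence covers of the Siegel modular varieties, of every genus. The forms may be holomorphic or not, and generic or
not; since there are cusp forms of `Sp_2g` which are not tempered (lifts of Saito, Kurokawa and Ikeda), the statement
is about all of them but the exceptional set cannot be empty, while for the globally generic ones it should be.

The Hecke operators used are those of the double cosets of `diag(p^(-l), 1, ..., 1, p^l)`, `l ≥ 1`: these `β = p^l x` are
the integral symplectic similitudes of multiplier `p^(2l)` with elementary divisors `1, p^l, ..., p^l, p^(2l)`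
(`IsTy`). The eigenvalue of the sum over `Sp_2g(ℤ) \ {β}` on a spherical vector with Satake parameters `α` is
`p^(g l)` times the coefficient of `X^l` in the explicit rational function `gf p α` with denominator
`(1 - X²/p) ∏ (1 - α_j X) (1 - α_j⁻¹ X)`; this formula is the definition of `IsHecke`.

Known before: the limit multiplicity property for all congruence subgroups (Finis and Lapid; for `Sp_2g` via Arthur
or Finis, Lapid, Müller for principal ones), which gives `o(D)` exceptions at a fixed prime; power savings (density
theorems) for special families of subgroups in genus two (Man; Evra, Gerbelli-Gauthier and Gustafsson) and in the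
aspects of the weight or the spectral parameter for fixed level (Kim, Wakatsuki and Yamauchi; Finis and Matz).

The main steps are all elementary; they follow the case of `GL_n` (`MP_8410ab_nt.DensityGLn`), but the arithmetic of
the symplectic group is different at each of them:
* the number of the fixed points on `Sp_2g(ℤ/N) ⧸ H` of an integral similitude, not a scalar, with entries at most `Z`
  is at most `C Z D^(1 - 1/A)` (`Fix.lean`), for all `N` and `H`: commutators of conjugates of the matrix and of
  transvections give one transvection with many fixed points (`FixA.lean`), then two opposite Siegel unipotent radicals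
  of small level fix a common point (`FixB.lean`), hence a principal congruence subgroup of small level does, by
  relative elementary generation over `ℤ/N` (`Gen.lean`);
* symplectic Gram-Schmidt and reduction theory with the simple steps of Lenstra, Lenstra, Lovász (`Red.lean`), the
  volume of the cells of a Siegel set by packing (`Cell.lean`), the count of the elements of `Sp_2g(ℤ)` with bounded
  conjugate (`Triv.lean`) and of those which fix points, using the highest root subgroup (`Low.lean`, `High.lean`);
* the decay of the cusp forms beyond the height `D`, for the maximal parabolic subgroups and their non-abelian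
  unipotent radicals (`Cut.lean`);
* `[Sp_2g(ℤ) \ {β}] ≤ (2g+1) p^(2gl)` (`Reps.lean`), and the coefficients of `gf p α` are large for one of any `2g+2`
  consecutive `l` if some `|α_j^(±1)| ≥ p ^ τ` (`Grow.lean`).

With contributions of helpers 31, 45, 46, 59, 62, 63, 64, 77, 99.
-/

set_option autoImplicit false

open MeasureTheory
open scoped Topology

namespace Pool.Agent.Results.MP_08cfa9_nt.DensitySymplectic

open Pool.Agent.T2h74.S

theorem result (g : ℕ) (hg : 2 ≤ g) :
    ∃ c : ℝ, 0 < c ∧ ∀ U : Set (PR g), U ∈ 𝓝 (1 : PR g) → ∀ τ : ℝ, 0 < τ → τ ≤ 1 → ∃ C : ℝ, 0 < C ∧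
      ∀ (N : ℕ) [NeZero N] (H : Subgroup (PN g N)) (F : Set (PR g)), IsFD F →
      ∀ (k : ℕ) (f : Fin k → PR g → XX H → ℂ),
        (∀ i, IsForm H (f i) ∧ IsL2 F (f i) ∧ IsCusp (f i) ∧ IsSlow U F (f i)) →
        (∀ i j, ip F (f i) (f j) = if i = j then 1 else 0) →
        (∀ i, ∃ (p : ℕ) (α : Fin g → ℂ), p.Prime ∧ ¬ p ∣ N ∧ (p : ℝ) ≤ (H.index : ℝ) ^ (c * τ) ∧
          IsHecke p α (f i) ∧ ∃ j, (p : ℝ) ^ τ ≤ ‖α j‖ ∨ (p : ℝ) ^ τ ≤ ‖(α j)⁻¹‖) →
        (k : ℝ) ≤ C * (H.index : ℝ) ^ (1 - c * τ) :=
  final (red iw) (int_bound cell) ent reps grow
    (low ent (fix fixA (fixB prim gen orb))) (high iw ent triv (fix fixA (fixB prim gen orb)))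
    trace (cut iw unimod) mass cov rcf g hg

end Pool.Agent.Results.MP_08cfa9_nt.DensitySymplectic
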