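import Pool.Agent.T2h74I.Fin
import Pool.Agent.T2h74I.Beta
import Pool.Agent.T2h74I.BK
import Pool.Agent.T2h74I.Iota
import Pool.Agent.T2h74I.Rec
import Pool.Agent.T2h74I.Det
import Pool.Agent.T2h74I.Sub
import Pool.Agent.T2h74I.Step
import Pool.Agent.T2h74I.Base
import Pool.Agent.T2h74I.Hua
import Pool.Agent.T2h74I.Tr
import Pool.Agent.T2h74I.BetaI
import Pool.Agent.T2h74I.G1
import Pool.Agent.T2h74I.G2
import Pool.Agent.T2h74I.Good
import Pool.Agent.T2h74I.Op
import Pool.Agent.T2h74I.Lb1
import Pool.Agent.T2h74I.Lb2
import Pool.Agent.T2h74I.Lb3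
import Pool.Agent.T2h74I.Lb4
import Pool.Agent.T2h74I.Lb5
import Pool.Agent.T2h74I.Lb
import Pool.Agent.T2h74I.Vol
import Pool.Agent.T2h74I.Ker
import Pool.Agent.T2h74I.Near

/-!
# A density theorem for `Sp_2g` over `ℚ` at the infinite place: all congruence subgroups

Let `g ≥ 2`. Let `N ≥ 1`, let `H` be any subgroup of `Sp_2g(ℤ/N)`, and consider the cusp forms of level `H`, i.e. the
functions `f` on `Sp_2g(ℝ) × Sp_2g(ℤ/N) ⧸ H` with `f (γ x, γ c) = f (x, c)` for `γ ∈ Sp_2g(ℤ)` whose integrals over
the unipotent radicals of all parabolic subgroups vanish. As `Sp_2g(ℤ)` maps onto `Sp_2g(ℤ/N)`, these are the cusp forms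
on the quotient of `Sp_2g(ℝ)` by the congruence subgroup of `Sp_2g(ℤ)` which is the inverse image of `H`; its index is
the index `D` of `H`. All congruence subgroups of `Sp_2g(ℤ)` are of this kind.

We show: there is a constant `c > 0`, depending only on `g`, such that for all `0 < τ ≤ 1` and `T` an orthonormal
system of cusp forms of level `H` which are spherical at the infinite place, with Langlands parameters
`ν_1, ..., ν_g` of size at most `T`, some of which has a real part of absolute value at least `τ`, has at most
`C D^(1 - c τ)` members; `C` depends on `g`, `τ` and `T`, not on `N` and `H`. So all but a power saving fraction of the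
spherical cusp forms with bounded parameters satisfy the Ramanujan conjecture at the infinite place (`Re ν_j = 0`, the
generalisation of the conjecture of Selberg) up to `τ`, in every tower of congruence covers.

The parameters are normalised so that the constant function has the parameters `g, g - 1, ..., 1`; the factor at
infinity of the standard `L`-function is `Γ_ℝ(s) ∏ Γ_ℝ(s + ν_j) Γ_ℝ(s - ν_j)`.

Besides the steps of the results `DensitySymplectic` and `NonTemperedMultiplicitySp` (fixed points of integral
matrices on `Sp_2g(ℤ/N) ⧸ H`, counting over a Siegel set, reduction theory, cusp forms are small at the points of large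
height), the proof uses the test functions `w^(k)(log det (1 + x xᵀ) - s)`, where `w` is a bump function, `w^(k)`,
`k < 2g`, one of its derivatives and `e^(s/2)` a small power of `D`.
* Their spherical transforms are computed by induction on `g`: on the Borel subgroup with the coordinates
  `(a, v, τ, b)`, `a > 0`, `v ∈ ℝ^(2g)`, `τ ∈ ℝ`, `b` in the Borel subgroup of `Sp_2g`, of `Sp_(2g+2)` we have
  `det (1 + x xᵀ) = det (1 + b bᵀ) (((a + 1/a) (1 + q(v)))² + (τ - τ₀)²)` with a quadratic form `q`. So the joint law
  of `log det (1 + x xᵀ)` and of the diagonal `(e^(t_i))` is the one of `∑ 2 log (2 cosh t_i) + v` and `t`, with the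
  density `∏ (2 cosh t_i)^g` and a measure for `v ≥ 0` whose Laplace transform is a product of Beta functions
  (an integral of Hua and Selberg, for all truncations).
* The lower bound: the operator `(g + 2 d/du)² - ν_i²` in the variable `u = log det (1 + x xᵀ)` removes the parameter
  `ν_i`, and with all but the largest one removed one exponential `e^((g + ν) s / 2)` with a nonvanishing factor
  dominates, uniformly in the parameters.

Known before: limit multiplicity, i.e. `o(D)` exceptions (Finis and Lapid); power savings for special families only.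
For one representation at a time: our `NonTemperedMultiplicitySp`; for `GL_n`: `MP_8410ab_nt.DensityGLnInfinite`.

With contributions of helpers 24, 26, 41, 55, 56, 69, 78, 82, 85, 99 (and to the library of helpers 31, 45, 46, 59, 62,
63, 64, 77, 99).
-/

set_option autoImplicit false

open MeasureTheory

namespace Pool.Agent.Results.MP_08cfa9_nt.DensitySymplecticInfinite

open Pool.Agent.T2h74.S Pool.Agent.T2h74.I

theorem result (g : ℕ) (hg : 2 ≤ g) :
    ∃ c : ℝ, 0 < c ∧ ∀ τ T : ℝ, 0 < τ → τ ≤ 1 → ∃ C : ℝ, 0 < C ∧
      ∀ (N : ℕ) [NeZero N] (H : Subgroup (PN g N)) (F : Set (PR g)), IsFD F →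
      ∀ (k : ℕ) (f : Fin k → PR g → XX H → ℂ) (ν : Fin k → Fin g → ℂ),
        (∀ i, IsForm H (f i) ∧ IsL2 F (f i) ∧ IsCusp (f i) ∧ IsSph (ν i) (f i)) →
        (∀ i j, ip F (f i) (f j) = if i = j then 1 else 0) →
        (∀ i, (∀ j, ‖ν i j‖ ≤ T) ∧ ∃ j, τ ≤ |(ν i j).re|) →
        (k : ℝ) ≤ C * (H.index : ℝ) ^ (1 - c * τ) :=
  have hbeta : S_beta := t_beta
  have hgood : S_good := t_good (t_g1 t_betaI) (t_g2 t_betaI)
  have hhua : S_hua := t_hua hbeta (t_BK hbeta) t_base (t_step (t_rec t_iota) t_det t_sub) hgood
  have hlb : S_lb := t_lb (t_lb2 t_lb1 t_op) (t_lb5 t_lb3 (t_lb4 t_betaI) t_op) t_op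
  t_fin (t_ker hhua t_tr hlb t_vol) t_near g hg

end Pool.Agent.Results.MP_08cfa9_nt.DensitySymplecticInfinite
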