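import Mathlib
import Pool.Agent.T2h79.HH.Main

/-!
# Hypothesis H of Rudnick and Sarnak for all `GL_n` over all number fields, with a power saving

Let `Π` be a unitary cuspidal automorphic representation of `GL_n` over a number field `K` (such a `Π` is globally
generic), unramified outside the finite set `S` of finite places, with Satake parameters `α_{i,v}`, `v ∉ S`; for
instance the functorial lift of a globally generic cuspidal representation of a classical group over `K`, if this lift
is cuspidal. The Ramanujan conjecture says `|α_{i,v}| = 1`. Then `|∑_i α_{i,v}^k| ≤ n`, and the part of the logarithm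
of `L(s, Π × Π~)` which comes from the pairs `(v, k)` for which `q_v^k` is not a prime number converges for
`Re s > 1/2`. Hypothesis H of Rudnick and Sarnak is the weak form of Ramanujan which their work on the zeros of
`L(s, Π)` needs: `∑_v |∑_i α_{i,v}^k|² (log q_v)² / q_v^k` converges for every `k ≥ 2`. It was known for `n ≤ 4`.

We prove, for all `n` and all `K`:

* the sum of `|∑_i α_{i,v}^k|² q_v^{-ks}` over the `v ∉ S` and `k ≥ 1` for which `q_v^k` is not a prime number
  converges for every real `s > 1 - 1 / (n² [K : ℚ] + 1)`;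
* Hypothesis H: `∑_{v ∉ S} |∑_i α_{i,v}^k|² (log q_v)^A / q_v^k` converges for all `k ≥ 2` and `A ≥ 0`.

The structure `CuspTwists` lists what is used of `Π`: the analytic properties of the Rankin-Selberg `L`-functions
`L(s, Π × Π~ × χ)` twisted by the primitive Dirichlet characters (composed with the norm of `K`) with a modulus
`q > 1` prime to a fixed integer: they are entire, of polynomial growth in vertical strips, and have a functional
equation with the conductor `Q q^{n² [K : ℚ]}` (Jacquet, Piatetski-Shapiro, Shalika; Moeglin, Waldspurger).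

The proof. Let `k ≥ 2`, take primes `ℓ ≡ 1 mod k` up to `D` and for each of them a character `χ_ℓ` of order `k`. The
Dirichlet coefficients `a(m)` of `L^S(s, Π × Π~)` are nonnegative, so
`∑_m a(m) W(m / X) |∑_ℓ χ_ℓ(m)|²`, `W` smooth, is at least about `π(D)²` times the sum over the `k`-th powers `m ≤ X`.
The diagonal terms contribute `≪ D X^{1 + ε}`, and for `ℓ ≠ ℓ'` the character `χ_ℓ conj χ_ℓ'` is primitive of
conductor `ℓ ℓ'`, so that the functional equation gives `≪ D^{n² [K : ℚ] + ε}`. With `D = X^{1 / (n² [K : ℚ] + 1)}` this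
is a power saving in the sum of `a(m)` over the `k`-th powers `m ≤ X`. For large `k` all characters modulo one prime
give a bound for each term, uniformly in `v` and `k`.
-/

set_option autoImplicit false

namespace Pool.Agent.Results.MP_08cfa9_nt.HypothesisH

open NumberField IsDedekindDomain Module
open Pool.Agent.TH861.GL3 (PL qq)
open Pool.Agent.T2h79.HH

/-- **Hypothesis H of Rudnick and Sarnak, with a power saving.** -/
theorem result (K : Type) [Field K] [NumberField K] (n : ℕ) (S : Finset (HeightOneSpectrum (𝓞 K)))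
    (α : PL S → Fin n → ℂ) (β : HeightOneSpectrum (𝓞 K) → Fin (n ^ 2) → ℂ)
    (κ : Fin 2 → Fin (n ^ 2 * finrank ℚ K) → ℂ) (Q : ℝ) (B : ℕ) (h : CuspTwists α β κ Q B) :
    (∀ s : ℝ, 1 - 1 / ((n : ℝ) ^ 2 * finrank ℚ K + 1) < s →
      Summable fun x : {x : PL S × ℕ // ¬ (qq x.1.1 ^ (x.2 + 1)).Prime} =>
        ‖∑ i, α x.1.1 i ^ (x.1.2 + 1)‖ ^ 2 * (qq x.1.1.1 : ℝ) ^ (-(((x.1.2 : ℝ) + 1) * s))) ∧
    ∀ k : ℕ, 2 ≤ k → ∀ A : ℕ,
      Summable fun v : PL S => ‖∑ i, α v i ^ k‖ ^ 2 * Real.log (qq v.1) ^ A / (qq v.1 : ℝ) ^ k :=
  ⟨fun _ hs => main1 h hs, fun _ hk A => main2 h hk A⟩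

end Pool.Agent.Results.MP_08cfa9_nt.HypothesisH
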