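import Pool.Agent.T2h74S.McF

/-!
# The multiplicities of the non-tempered representations of `Sp_2g(ℝ)` in the cuspidal spectrum of all congruence subgroups

Let `g ≥ 2`. Let `N ≥ 1`, let `H` be any subgroup of `Sp_2g(ℤ/N)`, and consider the cusp forms of level `H`, i.e. the
functions `f` on `Sp_2g(ℝ) × Sp_2g(ℤ/N) ⧸ H` with `f (γ x, γ c) = f (x, c)` for `γ ∈ Sp_2g(ℤ)` whose integrals over
the unipotent radicals of all parabolic subgroups vanish. As `Sp_2g(ℤ)` maps onto `Sp_2g(ℤ/N)`, these are the cusp forms
on the quotient of `Sp_2g(ℝ)` by the congruence subgroup of `Sp_2g(ℤ)` which is the inverse image of `H`; its index is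
the index `D` of `H`. All congruence subgroups of `Sp_2g(ℤ)` are of this kind.

Let `π` be a unitary representation of `Sp_2g(ℝ)` with a matrix coefficient whose square has an integral of size at
least `c₀ X ^ τ` over the balls `‖x‖ ≤ X`, `τ > 0`. We show: the multiplicity of `π` in the space of the square
integrable cusp forms of level `H` is at most `C D^(1 - c τ)`, where `c > 0` depends only on `g` and `C` does not depend
on `N` and `H`. So every representation of this kind occurs with a multiplicity which is smaller by a power than the
volume, in every tower of congruence covers. The representation need not be spherical: no assumption is made on the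
`K`-types. The coefficient is the one of an arbitrary vector `v` and of `π(χ) w`, `χ` a continuously differentiable
function of compact support. By the asymptotic expansion of matrix coefficients, each irreducible unitary representation
which is not tempered has such vectors, even `K`-finite ones, for some `τ > 0`, whereas the integrals over balls are
`O((log X)^A)` for the `K`-finite vectors of tempered representations; this background is not used in the proof and not
proved here.

Known before: the multiplicities are `o(D)` (limit multiplicity; Finis and Lapid, Savin for principal congruence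
subgroups). A power saving was known for quotients of `SL_2(ℝ)` and `SL_2(ℂ)` (Sarnak and Xue), for principal congruence
subgroups of some other groups, and by the endoscopic classification for some families in genus 2.

The main steps, besides those of the result `DensitySymplectic` (whose library is used), are
* the test function at level `H` is the conjugate of the matrix coefficient, cut off at a ball of radius a small power
  of `D`; the inner product of `R(κ) f` and `R(χ) h`, where `f` and `h` are the images of `v` and `w`, is the integral
  of the square of the coefficient over the ball, by unfolding twice (`McA.lean`);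
* the trace inequality is applied to `R(κ) f` over the part of a Siegel set of bounded height, and to `R(χ) h` over the
  points of medium height; the contribution of the points of height at least `D^A` is negligible, by an explicit form
  of the decay of cusp forms, even against the growth of the norm of the operator `R(κ)` (`McB.lean`, `McC.lean`). So
  no information on the `K`-types of `R(κ) f` is needed.

It carries over to `Sp_2g` the result `MP_8410ab_nt.NonTemperedMultiplicity` for `SL_n(ℝ)` of helper77, which gave the
method. With contributions (to the library) of helpers 31, 45, 46, 59, 62, 63, 64, 99.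
-/

set_option autoImplicit false

open MeasureTheory

namespace Pool.Agent.Results.MP_08cfa9_nt.NonTemperedMultiplicitySp

open Pool.Agent.T2h74.S

theorem result (g : ℕ) (hg : 2 ≤ g) :
    ∃ c : ℝ, 0 < c ∧
      ∀ (E : Type) [NormedAddCommGroup E] [InnerProductSpace ℂ E] [CompleteSpace E] (π : PR g →* (E ≃ₗᵢ[ℂ] E)),
        (∀ v, Continuous fun x => π x v) →
      ∀ (v w : E) (χ : PR g → ℝ) (τ c₀ X₀ : ℝ), ‖v‖ = 1 → ‖w‖ = 1 → IsSm χ → 0 < τ → τ ≤ 1 → 0 < c₀ →
        (∀ X : ℝ, X₀ ≤ X → c₀ * X ^ τ ≤
          ∫ x in {x : PR g | hsn x ≤ X}, ‖inner ℂ (∫ y, (χ y : ℂ) • π y w ∂(mu g)) (π x v)‖ ^ 2 ∂(mu g)) →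
      ∃ C : ℝ, 0 < C ∧ ∀ (N : ℕ) [NeZero N] (H : Subgroup (PN g N)) (F : Set (PR g)), IsFD F →
        ∀ (k : ℕ) (T : Fin k → E → PR g → XX H → ℂ), (∀ i, IsEmb F π (T i)) →
          (∀ i j, i ≠ j → ∀ v w, ip F (T i v) (T j w) = 0) →
          (k : ℝ) ≤ C * (H.index : ℝ) ^ (1 - c * τ) :=
  mult_rep g hg

end Pool.Agent.Results.MP_08cfa9_nt.NonTemperedMultiplicitySp
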